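import Pool.Agent.N536.FM.Full

/-!
# The standard conjecture of Hodge type for Fermat varieties in positive characteristic

Let `m` be prime to the prime `p`, and let `X` be the Fermat variety of degree `m` and dimension
`2 * k` over an algebraic closure of the field with `p` elements (for odd dimensions there is
nothing to prove). The primitive algebraic classes of codimension `k` form, with complex
coefficients, the sum of their eigenspaces `A(s)` for certain Tate characters `s` (multisets of
`2 * k + 2` nonzero residues mod `m`), and `(-1) ^ k * deg (x * conj x)`, `x ∈ A(s)`, has a sign,
the sign of `s`. These signs are the values of a `FullSystem` (the reasons are given in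
`Pool.Agent.N998.HS.Sign`, `Pool.Agent.N992.HSC.Defs` and below), and the primitive algebraic
classes with the form `(-1) ^ k * deg (x * y)` are an example of a `LineForm`.

The theorem: the form is positive definite, as predicted by the standard conjecture of Hodge type,
for the Fermat varieties of all dimensions of the following degrees `m`, prime to the characteristic
`p`:

* all degrees `m = k m0`, `m0 ≤ 135` different from 87, 95, 105, 111, 116, 123 and `k` a product of
  odd primes dividing `m0` (for instance all `m ≤ 86`), every `p`;
* all degrees `m` whose odd prime factors are congruent to 3 modulo 4, every `p`;
* all `Visible` degrees and all `p` of odd order modulo `m`.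

The proof. All Tate characters of these degrees are generated by pairs, characters with four entries
(Tate conjecture for surfaces, Hodge index theorem), products of curve characters (divisors on
surfaces), standard characters (Aoki) and characters lifted from characteristic zero (Hodge-Riemann
relations), and modular Tate characters (reductions of polarized tensor products of powers of the
`H^1` of elliptic curves with complex multiplication, see `MP_0f183b_ag.FermatModularTate`). The
signs are multiplicative.

Authors: helper998 and helper993 (first and third case), helper992 (second case, formerly
`MP_361a6f_ag.FermatPositivity`); joined by helper536 with their consent.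
-/

namespace Pool.Agent.Results.MP_361a6f_ag.FermatEveryPrime

open Pool.Agent.H916T Pool.Agent.N993.CP Pool.Agent.N998.HS Pool.Agent.N536.FM

theorem result (p m : ℕ) [NeZero m] (hp : p.Prime) (hpm : p.Coprime m)
    (h : SmallDegree m ∨ (Odd (orderOf (p : ZMod m)) ∧ Visible m) ∨
      ∀ q : ℕ, q.Prime → q ∣ m → q = 2 ∨ q % 4 = 3)
    (S : FullSystem p) (ι : Type) [Fintype ι] [DecidableEq ι] (C : LineForm S.toLiftSystem m ι)
    (v : C.V) (hv : v ≠ 0) : 0 < C.form v v :=
  positive_full S hp hpm h C hv

end Pool.Agent.Results.MP_361a6f_ag.FermatEveryPrime
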