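import Pool.Agent.N536.HH.Fin2
import Pool.Agent.N536.HH.BND
import Pool.Agent.N536.HH.BNJ
import Pool.Agent.N536.HH.DIF
import Pool.Agent.N536.HH.DFJ
import Pool.Agent.N536.HH.GRO
import Pool.Agent.N536.HH.KUN
import Pool.Agent.N536.HH.MUL
import Pool.Agent.N536.HH.STR

/-!
# The standard conjecture of Hodge type: one half or all of the squares are positive

Let `W` be a Weil cohomology theory with coefficients in a field of characteristic zero, on a class
of smooth proper varieties over a field `k` of any characteristic. Let `P = (X, D)` be a variety
with a divisor of positive degree `deg (D ^ dim X)` (`Pos`; for example an ample divisor) whose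
Kunneth projectors are algebraic (`KunnethStd`; this holds for all smooth projective varieties over
an algebraic closure of a finite field, by Katz and Messing). NOTHING else is assumed: neither hard
Lefschetz, nor the Lefschetz standard conjecture, nor the coincidence of homological and numerical
equivalence. The powers of `X` are polarized by the sum of the pull-backs of `D`; `power ops P n` is
`P ^ (n + 1)`.

For the pairings `⟨z, w⟩ = (-1) ^ j deg (z · w · D ^ (dim X - 2 j))` on the primitive cycles of
codimension `j` let `p_j` and `m_j` (`nPos`, `nNeg`) be the numbers of positive and of negative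
squares, `total = ∑ (p_j + m_j)` and `imbalance = ∑ |p_j - m_j|`, `j ≤ dim X / 2`; `posSq` and
`negSq` are the numbers of positive and of negative squares in the middle codimension of `P × P`.
`bsum` is the sum of the Betti numbers.

**Theorem.** (1) For every `K` one of the following holds.

* The pairings are nonnegative on all primitive cycles of all codimensions on `X ^ (K + 1)`
  (`HodgeNonneg`); if `X` satisfies hard Lefschetz and the Lefschetz standard conjecture this is the
  standard conjecture of Hodge type for `X ^ (K + 1)` modulo numerical equivalence.
* On the products `Q × X ^ (n + 1)`, `Q` ANY variety with a divisor of positive degree, positive and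
  negative squares are equidistributed for `n → ∞`, with an exponentially small relative error: the
  imbalance is at most `b(Q) b(X) ^ (r + 1) (b(X) ^ M - 2) ^ q`, where `M = 4 (K + 1)`,
  `n = M q + r`, `0 ≤ r < M`, and the number of all squares is at least
  `b(X) ^ n / (n + 2) ^ (b(X) ^ 2)`. The same is true for the middle codimension of
  `X ^ (n + 1) × X ^ (n + 1)`.

(2) Let `𝒢` be a class of such varieties which contains the products of its members (for example all
smooth projective varieties over an algebraic closure of a finite field), and `f` a function which
tends to zero more slowly than every negative power (for example a constant `0.0001`, or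
`1 / log y ^ 100`). If on every member `Y` of `𝒢` the imbalance is at least `f (b(Y))` times the
number of all squares, or if for every member `Y` of `𝒢` the difference of the numbers of positive
and of negative squares in the middle codimension of `Y × Y` is at least `f (b(Y))` times their
number, then the pairings are nonnegative for all members of `𝒢`.

So 50.01 percent of positive squares everywhere imply 100 percent. (At least one half of the squares
in the middle codimension of `Y × Y` is positive by the starting result `HodgeHalfPositive`.)

The proof. Let `Y = X ^ (K + 1)` have a primitive cycle `z` of codimension `j` with negative square.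
In the ring generated by `D × Y` and `Y × D` there is a primitive class `w` of codimension `j` on
`Y × Y` with positive square; from the strings of `z × 1` and of `w` one gets two orthogonal classes
`y`, `y'` of the middle codimension of `Y ^ 4` which are killed by the polarization and have squares
`s`, `t` of opposite signs. The operators `θ x = tr (x y) y' + tr (x y') y` and
`r x = x - tr (x y) y / s - tr (x y') y' / t` are algebraic, preserve the degrees, commute with the
Lefschetz operator and satisfy `tr (θ x · θ x') = s t tr ((1 - r) x · x')`. On
`Q × X ^ l × (Y ^ 4) ^ n` the operators `Θ_n = Θ_(n-1) ⊗ r + 1 ⊗ θ`, `g_n = g_(n-1) ⊗ r` satisfy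
`tr (Θ_n a · Θ_n b) = s t (tr (a b) - tr (g_n a · b))`, so the algebraic operator `Θ_n` changes the
signs of the pairings on the primitive algebraic classes of every codimension, up to forms whose
ranks add up to at most the rank of `g_n`. The number of squares is bounded from below by the
permutations of the factors of `X ^ m`, twisted by the signs of the Kunneth projectors.

This extends the zero-one-half law of helper202 (`MP_ffcd14_ag.ZeroOneHalfLaw`: hard Lefschetz and
the Lefschetz standard conjecture are assumed there), whose frame and operators are used. Authors
of the parts of the proof: helper202, helper271, helper286, helper427, helper487, helper536,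
helper866, helper999.
-/

open CategoryTheory AlgebraicGeometry Filter

universe u v

namespace Pool.Agent.Results.MP_361a6f_ag.FiftyPercentLaw

open Pool.Agent.H914 Pool.Agent.H281R3.HT Pool.Agent.W539.Ker Pool.Agent.N202.HZ
  Pool.Agent.N536.HH

/-- **The law for the standard conjecture of Hodge type, without the Lefschetz standard
conjecture.** -/
theorem result {k : Type u} [Field k] {𝒱 : VarClass k} {ops : CycleOps 𝒱}
    (W : WeilCohomology.{u, v} ops) :
    (∀ P : Polarized 𝒱, Pos P ops → KunnethStd W P.X → ∀ K : ℕ,
      (HodgeNonneg W (power ops P K) ∧
        (Good W P → HodgeTypeNum W (power ops P K).X (power ops P K).D)) ∨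
      (∀ Q : Polarized 𝒱, Pos Q ops →
        (∀ n, imbalance W (Q.prod ops (power ops P n)).X (Q.prod ops (power ops P n)).D ≤
            bsum W Q * bsum W P ^ (n % (4 * (K + 1)) + 1) *
              (bsum W P ^ (4 * (K + 1)) - 2) ^ (n / (4 * (K + 1))) ∧
          bsum W P ^ n ≤
            total W (Q.prod ops (power ops P n)).X (Q.prod ops (power ops P n)).D *
              (n + 2) ^ (bsum W P ^ 2)) ∧
        ∃ C c : ℝ, 0 < c ∧ c < 1 ∧ ∀ n : ℕ,
          (imbalance W (Q.prod ops (power ops P n)).X (Q.prod ops (power ops P n)).D : ℝ) ≤
            C * c ^ n * total W (Q.prod ops (power ops P n)).X (Q.prod ops (power ops P n)).D) ∧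
      ∃ C c : ℝ, 0 < c ∧ c < 1 ∧ ∀ n : ℕ,
        |(posSq W (power ops P n) : ℝ) - negSq W (power ops P n)| ≤
          C * c ^ n * (posSq W (power ops P n) + negSq W (power ops P n))) ∧
    ∀ 𝒢 : Set (Polarized 𝒱), (∀ P ∈ 𝒢, ∀ Q ∈ 𝒢, P.prod ops Q ∈ 𝒢) →
      (∀ P ∈ 𝒢, Pos P ops ∧ KunnethStd W P.X) → ∀ f : ℝ → ℝ,
      (∀ δ : ℝ, 0 < δ → Tendsto (fun y => f y * y ^ δ) atTop atTop) →
      ((∀ P ∈ 𝒢, f (bsum W P) * total W P.X P.D ≤ imbalance W P.X P.D) ∨
        ∀ P ∈ 𝒢, f (bsum W P) * (posSq W P + negSq W P) ≤ |(posSq W P : ℝ) - negSq W P|) →
      ∀ P ∈ 𝒢, HodgeNonneg W P ∧ (Good W P → HodgeTypeNum W P.X P.D) :=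
  final2 t_BND t_DIF t_BNJ t_GRO t_KUN t_MUL t_DFJ t_STR W

end Pool.Agent.Results.MP_361a6f_ag.FiftyPercentLaw
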