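import Mathlib
import Pool.Agent.N171.Ht8

/-!
# The standard conjecture of Hodge type for products with powers of hyperelliptic curves

Let `W` be a Weil cohomology theory on a class of smooth proper varieties over a field `k` of any
characteristic, with coefficients in a field which contains the 2-adic numbers; the example is the
2-adic cohomology of the varieties over an algebraically closed field `k` of characteristic `p > 2`.
Let `K` be a field of characteristic different from two (for instance a field of functions over a
finite field) with algebraic closure `F` (in the example `F = k`), and `G` a class of
varieties with an action of the Galois group of `F / K` on the cohomology which has the formal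
properties of a Galois action (the example: varieties over `K`), closed under products.

The varieties `X i` are finitely many hyperelliptic curves `y ^ 2 = ∏ a, (x - α i a)`, with an odd number
of branch points `α i a ∈ K`, or, more generally, varieties of odd dimension whose transcendental
cohomology is in the middle degree and, up to a Tate twist, isomorphic to the rational 2-adic Tate
module `V_2 (J i)` of the Jacobian of such a curve (for a curve `X i` it is `H ^ 1 (X i) = V_2 (J i) (-1)`).
The Tate module is not a datum here: `J i` is the class group of the ring `F[x, y]` with
`y ^ 2 = ∏ a, (x - α i a)`, with the action of the Galois group on the coefficients (`IsActionOf`), and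
the hypothesis is stated with compatible sequences of elements of this group (`TateSeq`).

The hypothesis on the curves (`SignData`) is an explicit condition on the classes of the differences
of the branch points modulo squares: there are homomorphisms `l i k : Kˣ → {1, -1}` (parities of
valuations, quadratic characters, ...) which are `-1` at the difference of `α i a` and `α i b` exactly if
`a` and `b` are in a set `I i k` of even cardinality, and trivial for the other curves; the sets `I i k`
generate the sets of even cardinality and are connected by odd intersections. The variety `Z` is arbitrary;
it is related to the curves only by the condition `IndepOf`, on the field generated by the eighth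
roots of unity and by the cohomology of `Z` modulo four. If `l i k` is the parity of a discrete
valuation of `K` with residue characteristic different from two, it says nothing more than that
`K (ζ_8, L / 4)` contains no square root of an element with odd valuation, so it holds if `Z` has good
reduction there. There is no condition on the reduction of the curves, on their endomorphisms or on
Frobenius elements.

The conclusion: if `Z`, with the divisor `E`, satisfies the hard Lefschetz theorem and the standard
conjectures of Lefschetz and of Hodge type (for instance if `Z` is a point, a curve or a surface), then **the
standard conjecture of Hodge type and the conjecture D hold for the product of `Z` with arbitrary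
powers of the `X i`**, with the sum of the pull-backs of the divisors.

Proof. The automorphisms `σ` given by Kummer theory, with `√ u ↦ l i k (u) √ u`, which fix `ζ_8` and act
trivially on the lattice of `Z` modulo four, act on the Tate module of `J i` by a symplectic reflection
modulo four and trivially modulo four on the others. The logarithms of such automorphisms generate,
together with two times the symplectic Lie algebra, the symplectic Lie algebras over the 2-adic
integers, and it follows by a bootstrapping argument that these Lie algebras kill all forms on the Tate
modules with values in the cohomology of `Z` which are equivariant under a subgroup of finite
index. By the first fundamental theorem the algebraic classes on the tower are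
combinations of products of algebraic classes on the powers of the `X i` and of classes on `Z`, and
those of the powers of `X i` are generated by algebraic classes of the factors and by the transcendental
parts of the diagonals of pairs of factors.
-/

universe u

namespace Pool.Agent.Results.MP_361a6f_ag.HyperellipticProducts

open Pool.Agent.H914 Pool.Agent.H281R3.HT Pool.Agent.TH125.Gal Pool.Agent.N171.Htp

/-- **The standard conjecture of Hodge type for products with powers of hyperelliptic curves.** -/
theorem result {k : Type u} [Field k] {𝒱 : VarClass k} {ops : CycleOps 𝒱}
    (W : WeilCohomology.{u, 0} ops) [Algebra ℚ_[2] W.K] {K F : Type} [Field K] [Field F]
    [Algebra K F] [IsAlgClosure K F] {ι : Type} [Finite ι] {τ κ : ι → Type} [∀ i, Fintype (τ i)]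
    [∀ i, DecidableEq (τ i)] (α : ∀ i, τ i → K) [∀ i, Branch (α i)]
    (I : ∀ i, κ i → Finset (τ i)) (l : ∀ i, κ i → (Kˣ →* ℤˣ)) (hs : SignData α I l)
    (G : Set (GVar W (F ≃ₐ[K] F))) (X : ι → GVar W (F ≃ₐ[K] F)) (D : ∀ i, (X i).X.Cycles)
    (Z : GVar W (F ≃ₐ[K] F)) (h : TateSystem α G X D Z)
    (hZ : IndepOf Z.act fun x : Σ i, κ i => l x.1 x.2)
    (E : Z.X.Cycles) (hE : IsPolarization W Z.X E) (L : List (ι × ℕ))
    (hL : (L.map Prod.fst).Nodup) :
    HodgeType W (nodalTower X D Z E L).X (nodalTower X D Z E L).D ∧
      HomEqNum W (nodalTower X D Z E L).X := by
  classical
  have hF : IsAlgClosed F := IsAlgClosure.isAlgClosed K
  have := Fintype.ofFinite ι
  exact (kSys_tate hs h hZ).hodge hE L hL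

end Pool.Agent.Results.MP_361a6f_ag.HyperellipticProducts
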