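import Mathlib
import Pool.Agent.N171.Bk3

/-!
# The standard conjecture of Hodge type for products with powers of curves with large Galois groups

Let `W` be a Weil cohomology theory on a class of smooth proper varieties over a field `k` of any
characteristic, with coefficients in a field which contains the 2-adic numbers; the example is the
2-adic cohomology of the varieties over an algebraically closed field `k` of characteristic `p > 2`.
Let `K` be a field of characteristic different from two (for instance a field of functions over a
finite field) with algebraic closure `F` (in the example `F = k`), and `G` a class of
varieties with an action of the Galois group of `F / K` on the cohomology which has the formal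
properties of a Galois action (the example: varieties over `K`), closed under products.

The varieties `X i` are finitely many hyperelliptic curves `y ^ 2 = f i (x)`, or, more generally,
varieties of odd dimension whose transcendental cohomology is in the middle degree and, up to a Tate
twist, isomorphic to the rational 2-adic Tate module `V_2 (J i)` of the Jacobian of such a curve (for a
curve `X i` it is `H ^ 1 (X i) = V_2 (J i) (-1)`). The Tate module is not a datum here: `J i` is the class
group of the ring `F[x, y]` with `y ^ 2 = f i (x)`, with the action of the Galois group on the coefficients
(`IsActionOf`), and the hypothesis is stated with compatible sequences of elements of this group
(`TateSeq`).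

The only hypotheses on the curves are: the `f i` are monic separable polynomials of odd degrees
`n i ≥ 7` whose Galois groups are symmetric or alternating groups, and for `j ≠ i` the splitting field of
`f i` is not contained in the splitting field of `f j` (`Large`). There is no condition on the reduction
of the curves, on their endomorphisms, on Frobenius elements or on the points of order four.

The variety `Z` is arbitrary; it is related to the curves only by the condition that for a stable lattice
`L` in its cohomology the splitting fields of the `f i` are not contained in the field generated by the
action on `L / 2`. This holds for all `f i` with `(n i)! > 2 ^ (d ^ 2 + 1)`, where `d` is the sum of the Betti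
numbers of `Z` (`FreeOf`).

The conclusion: if `Z`, with the divisor `E`, satisfies the hard Lefschetz theorem and the standard
conjectures of Lefschetz and of Hodge type (for instance if `Z` is a point, a curve or a surface), then **the
standard conjecture of Hodge type and the conjecture D hold for the product of `Z` with arbitrary
powers of the `X i`**, with the sum of the pull-backs of the divisors.

Proof. By the simplicity of the alternating groups some element of the Galois group acts on the roots of
`f i` by the product of two disjoint transpositions and trivially modulo four on `L`, on the Tate
modules of the other curves and on the roots of unity. Its square is trivial modulo two on the Tate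
module of `J i`, but it is not a scalar modulo four. By the classification of the submodules, under the
alternating group, of the reductions of such elements, one gets many elements whose logarithms generate
a Lie algebra which contains, modulo two, all the transvections; so its closure contains the symplectic
Lie algebra over the 2-adic integers. By a bootstrapping argument these Lie algebras kill all forms on
the Tate modules with values in the cohomology of `Z` which are equivariant under a subgroup of finite
index. By the first fundamental theorem the algebraic classes on the tower are
combinations of products of algebraic classes on the powers of the `X i` and of classes on `Z`, and
those of the powers of `X i` are generated by algebraic classes of the factors and by the transcendental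
parts of the diagonals of pairs of factors.
-/

universe u

namespace Pool.Agent.Results.MP_361a6f_ag.LargeGaloisGroups

open Pool.Agent.H914 Pool.Agent.H281R3.HT Pool.Agent.TH125.Gal Pool.Agent.N171.Bkp

open Polynomial in
/-- **The standard conjecture of Hodge type for products with powers of curves with large Galois
groups.** -/
theorem result {k : Type u} [Field k] {𝒱 : VarClass k} {ops : CycleOps 𝒱}
    (W : WeilCohomology.{u, 0} ops) [Algebra ℚ_[2] W.K] {K F : Type} [Field K] [Field F]
    [Algebra K F] [IsAlgClosure K F] {ι : Type} [Finite ι] (f : ι → K[X]) [∀ i, Branch (f i)]
    (hs : Large F f) (G : Set (GVar W (F ≃ₐ[K] F))) (X : ι → GVar W (F ≃ₐ[K] F))
    (D : ∀ i, (X i).X.Cycles) (Z : GVar W (F ≃ₐ[K] F)) (h : TateSystem f G X D Z)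
    (hZ : FreeOf Z.act f) (E : Z.X.Cycles) (hE : IsPolarization W Z.X E) (L : List (ι × ℕ))
    (hL : (L.map Prod.fst).Nodup) :
    HodgeType W (nodalTower X D Z E L).X (nodalTower X D Z E L).D ∧
      HomEqNum W (nodalTower X D Z E L).X := by
  classical
  have hF : IsAlgClosed F := IsAlgClosure.isAlgClosed K
  have := Fintype.ofFinite ι
  exact (kSys_large hs h hZ).hodge hE L hL

end Pool.Agent.Results.MP_361a6f_ag.LargeGaloisGroups
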